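import Pool.Agent.Lib.MP_d4b800_co.Final

namespace Pool.Agent.Results.MP_d4b800_co.CliqueFour

open Pool.Agent.Lib.MP_d4b800_co

/-- The Weak Win Number `a` and the Reverse Weak Win Number `b` of `K_4` satisfy
`b ≤ 9 < 10 ≤ a`; in particular they differ. -/
theorem result : ∃ a b : ℕ,
    IsLeast {n : ℕ | ∀ N : ℕ, n ≤ N → MakerWins N 4} a ∧
    IsLeast {n : ℕ | ∀ N : ℕ, n ≤ N → SomeoneForces N 4} b ∧
    b ≤ 9 ∧ 10 ≤ a := by
  classical
  have h1 : ∃ n, ∀ N : ℕ, n ≤ N → MakerWins N 4 := exists_makerWins 4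
  have h2 : ∃ n, ∀ N : ℕ, n ≤ N → SomeoneForces N 4 := ⟨9, fun N hN => someoneForces_of_le hN⟩
  refine ⟨Nat.find h1, Nat.find h2, ⟨Nat.find_spec h1, fun n hn => Nat.find_min' h1 hn⟩,
    ⟨Nat.find_spec h2, fun n hn => Nat.find_min' h2 hn⟩,
    Nat.find_min' h2 fun N hN => someoneForces_of_le hN, ?_⟩
  by_contra hc
  exact not_makerWins_nine (Nat.find_spec h1 9 (by omega))

end Pool.Agent.Results.MP_d4b800_co.CliqueFour
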